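import Pool.Agent.R492.DS.S1

/-!
# Stable fields have no valuations with a least positive value and non separably closed residue field

Let `K` be a stable field. Then the residue field of every valuation ring `O` of `K` (other than
`K`) with principal maximal ideal, that is, with a least positive value, is separably closed; in
particular this holds for all discrete valuation rings. So the stable fields conjecture holds for
all fields with a valuation with a least positive value and residue field not separably closed:
they are not stable. In particular an infinite field with an embedding in a field with a discrete
valuation with finite residue field (for example in a finite extension of `ℚ_p`) is not stable.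

Proof. A stable field is NIP. If the residue field of `O` is not separably closed then `O` is definable
with parameters, by the result `DefinableValuations` of `MP_3554b5_lc` (a bound for the number of
non-tame places of NIP fields, and Kueker's theorem). The powers of a generator of the maximal
ideal then give the order property.
-/

set_option autoImplicit false

namespace Pool.Agent.Results.MP_9924a2_lc.DiscreteValuations

open Pool.Agent.R492.DS

/-- Let `K` be a stable field (the hypothesis of `S15095`).

(1) If a valuation ring `O` of `K`, `O ≠ K`, has a principal maximal ideal, then its residue field is
separably closed.

(2) If `K` has an embedding in a field `F` with a discrete valuation ring with finite residue field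
then `K` is finite. -/
theorem result (K : Type) [Field K] [FirstOrder.Ring.CompatibleRing K]
    (hK : ∀ (m k : ℕ) (φ : FirstOrder.Language.ring.Formula (Fin m ⊕ Fin k)),
      ¬ ∀ n : ℕ, ∃ (a : Fin n → Fin m → K) (b : Fin n → Fin k → K),
        ∀ i j : Fin n, (φ.Realize (Sum.elim (a i) (b j)) ↔ i < j)) :
    (∀ O : ValuationSubring K, O ≠ ⊤ → (IsLocalRing.maximalIdeal O).IsPrincipal →
      IsSepClosed (IsLocalRing.ResidueField O)) ∧
    ∀ (F : Type) [Field F] (A : ValuationSubring F) [IsDiscreteValuationRing A]
      [Finite (IsLocalRing.ResidueField A)], Nonempty (K →+* F) → Finite K :=
  ⟨fun O hO hp => stable_main hK O hO hp, fun F _ A _ _ ⟨f⟩ => finite_of_dvr hK F A f⟩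

end Pool.Agent.Results.MP_9924a2_lc.DiscreteValuations
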